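import Pool.Agent.Helper19.HV.Curve
import Pool.Agent.Helper91.PL.A1

/-!
# Project HV, module BET: symbols satisfy the five-term relation
-/

set_option autoImplicit false

open Polynomial

namespace Pool.Agent.Helper19.HV

noncomputable section

open PL

private theorem al2_swap_BET {U N : Type} [AddCommGroup U] [Module ℚ U] [AddCommGroup N] [Module ℚ N]
    (A : U →ₗ[ℚ] U →ₗ[ℚ] N) (hA : Al2 A) (a b : U) : A a b = - A b a := by
  have h := hA (a + b)
  have ha := hA a
  have hb := hA b
  simp only [map_add, LinearMap.add_apply] at h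
  rw [ha, hb, zero_add, add_zero] at h
  exact eq_neg_of_add_eq_zero_right h

private theorem lg_sub_comm_BET {G : Type} [Field G] (a b : G) : lg (a - b) = lg (b - a) := by
  rw [← neg_sub b a, lg_neg]

private theorem lg_div_BET {G : Type} [Field G] {a b : G} (ha : a ≠ 0) (hb : b ≠ 0) :
    lg (a / b) = lg a - lg b := by
  rw [div_eq_mul_inv, lg_mul ha (inv_ne_zero hb), lg_inv, sub_eq_add_neg]

theorem mBET {G N : Type} [Field G] [AddCommGroup N] [Module ℚ N]
    (A : V G →ₗ[ℚ] V G →ₗ[ℚ] N) (hA : Al2 A) : FT5 fun x : G => A (lg (1 - x)) (lg x) where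
  zero := by
    rw [lg_zero, map_zero]
  one_sub x := by
    rw [sub_sub_cancel]
    exact al2_swap_BET A hA _ _
  inv x := by
    by_cases hx : x = 0
    · subst hx
      rw [inv_zero, lg_zero, map_zero, neg_zero]
    · by_cases hx1 : x = 1
      · subst hx1
        rw [inv_one, lg_one, map_zero, neg_zero]
      · have h1 : 1 - x⁻¹ = (x - 1) / x := by field_simp
        rw [h1, lg_div_BET (sub_ne_zero.2 hx1) hx, lg_inv, lg_sub_comm_BET x 1, map_neg, map_sub,
          LinearMap.sub_apply, hA (lg x), sub_zero]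
  five x y hx0 hx1 hy0 hy1 hxy := by
    have hyx : y - x ≠ 0 := sub_ne_zero.2 (Ne.symm hxy)
    have hy1' : y - 1 ≠ 0 := sub_ne_zero.2 hy1
    have h1x : 1 - x ≠ 0 := sub_ne_zero.2 (Ne.symm hx1)
    have e1 : 1 - x / y = (y - x) / y := by field_simp
    have e2 : 1 - (y - x) / (y - 1) = (x - 1) / (y - 1) := by field_simp; ring
    have e3 : 1 - x * (y - 1) / (y - x) = (y * (1 - x)) / (y - x) := by field_simp; ring
    have s1 : lg (y - 1) = lg (1 - y) := lg_sub_comm_BET y 1
    have s2 : lg (x - 1) = lg (1 - x) := lg_sub_comm_BET x 1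
    simp only [e1, e2, e3]
    rw [lg_div_BET hyx hy0, lg_div_BET hx0 hy0, lg_div_BET (sub_ne_zero.2 hx1) hy1',
      lg_div_BET hyx hy1', lg_div_BET (mul_ne_zero hy0 h1x) hyx, lg_div_BET (mul_ne_zero hx0 hy1') hyx,
      lg_mul hy0 h1x, lg_mul hx0 hy1', s1, s2]
    generalize lg (1 - x) = u
    generalize lg (1 - y) = v
    generalize lg (y - x) = w
    generalize lg x = X
    generalize lg y = Y
    have hv := hA v
    have hw := hA w
    have hY := hA Y
    simp only [map_add, map_sub, LinearMap.add_apply, LinearMap.sub_apply]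
    rw [al2_swap_BET A hA Y v, al2_swap_BET A hA Y w, al2_swap_BET A hA w v, hv, hw, hY]
    abel

end

end Pool.Agent.Helper19.HV
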